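import Mathlib

/-!
# Causal differential equations for formal power series
-/

set_option autoImplicit false

namespace Pool.Agent.Helper29K9.QA

open PowerSeries

/-- the formal integral -/
noncomputable def itg (f : PowerSeries ℂ) : PowerSeries ℂ :=
  PowerSeries.mk fun n => match n with
    | 0 => 0
    | k + 1 => coeff k f / ((k : ℂ) + 1)

lemma coeff_itg_zero (f : PowerSeries ℂ) : coeff 0 (itg f) = 0 := by
  rw [itg, coeff_mk]

lemma coeff_itg_succ (f : PowerSeries ℂ) (k : ℕ) :
    coeff (k + 1) (itg f) = coeff k f / ((k : ℂ) + 1) := by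
  rw [itg, coeff_mk]

/-- the iteration -/
noncomputable def it {n : ℕ} (F : (Fin n → PowerSeries ℂ) → Fin n → PowerSeries ℂ)
    (a : Fin n → ℂ) : ℕ → Fin n → PowerSeries ℂ
  | 0 => fun i => C (a i)
  | m + 1 => fun i => C (a i) + itg (F (it F a m) i)

lemma itg_dvd {k : ℕ} {f g : PowerSeries ℂ} (h : (X : PowerSeries ℂ) ^ k ∣ f - g) :
    (X : PowerSeries ℂ) ^ (k + 1) ∣ itg f - itg g := by
  rw [X_pow_dvd_iff] at h ⊢
  intro m hm
  rw [map_sub]
  rcases m with _ | m
  · rw [coeff_itg_zero, coeff_itg_zero, sub_zero]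
  · have := h m (by omega)
    rw [map_sub, sub_eq_zero] at this
    rw [coeff_itg_succ, coeff_itg_succ, this, sub_self]

theorem ode_b (n : ℕ) (F : (Fin n → PowerSeries ℂ) → Fin n → PowerSeries ℂ)
    (hF : ∀ (k : ℕ) (s r : Fin n → PowerSeries ℂ), (∀ i, (X : PowerSeries ℂ) ^ k ∣ s i - r i) →
      ∀ i, (X : PowerSeries ℂ) ^ k ∣ F s i - F r i) (a : Fin n → ℂ) :
    ∃ s : Fin n → PowerSeries ℂ, (∀ i, coeff 0 (s i) = a i) ∧
      ∀ i, PowerSeries.derivative ℂ (s i) = F s i := by
  -- the iteration is Cauchy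
  have h1 : ∀ m : ℕ, ∀ i, (X : PowerSeries ℂ) ^ (m + 1) ∣ it F a (m + 1) i - it F a m i := by
    intro m
    induction m with
    | zero =>
      intro i
      show X ^ 1 ∣ C (a i) + itg (F (it F a 0) i) - C (a i)
      rw [add_sub_cancel_left, X_pow_dvd_iff]
      intro m hm
      have : m = 0 := by omega
      rw [this, coeff_itg_zero]
    | succ m ih =>
      intro i
      show X ^ (m + 1 + 1) ∣ C (a i) + itg (F (it F a (m + 1)) i) -
        (C (a i) + itg (F (it F a m) i))
      rw [add_sub_add_left_eq_sub]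
      exact itg_dvd (hF (m + 1) _ _ ih i)
  -- the coefficients stabilize
  have h2 : ∀ k m : ℕ, k < m → ∀ i, coeff k (it F a m i) = coeff k (it F a (k + 1) i) := by
    intro k m hkm i
    induction m, hkm using Nat.le_induction with
    | base => rfl
    | succ m hm ih =>
      rw [← ih]
      have h3 := X_pow_dvd_iff.1 (h1 m i) k (by omega)
      rwa [map_sub, sub_eq_zero] at h3
  refine ⟨fun i => PowerSeries.mk fun k => coeff k (it F a (k + 1) i), ?_, ?_⟩
  · intro i
    rw [coeff_mk]
    show coeff 0 (C (a i) + itg (F (it F a 0) i)) = a i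
    rw [map_add, coeff_itg_zero, add_zero, coeff_zero_C]
  · intro i
    set s : Fin n → PowerSeries ℂ := fun i => PowerSeries.mk fun k => coeff k (it F a (k + 1) i)
      with hs
    have h4 : ∀ m : ℕ, ∀ i, (X : PowerSeries ℂ) ^ m ∣ s i - it F a m i := by
      intro m i
      rw [X_pow_dvd_iff]
      intro k hk
      rw [map_sub, sub_eq_zero, hs]
      simp only [coeff_mk]
      exact (h2 k m hk i).symm
    ext k
    rw [coeff_derivative]
    have h5 : coeff (k + 1) (s i) = coeff k (F (it F a (k + 1)) i) / ((k : ℂ) + 1) := by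
      rw [hs]
      simp only [coeff_mk]
      show coeff (k + 1) (C (a i) + itg (F (it F a (k + 1)) i)) = _
      rw [map_add, coeff_itg_succ, coeff_C, if_neg (by omega), zero_add]
    have h6 := X_pow_dvd_iff.1 (hF (k + 1) _ _ (h4 (k + 1)) i) k (by omega)
    rw [map_sub, sub_eq_zero] at h6
    have h7 : ((k : ℂ) + 1) ≠ 0 := by exact_mod_cast Nat.succ_ne_zero k
    rw [h5, div_mul_cancel₀ _ h7, h6]

end Pool.Agent.Helper29K9.QA
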