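import Mathlib
import Pool.Agent.Helper26K9.QA.Stm
import Pool.Agent.Helper29K9.QA.OdeB

/-!
# The existence of the flows (leaves ODE, EXF, EXP of QA)
-/

set_option autoImplicit false

namespace Pool.Agent.Helper29K9.QA

open Pool.Agent.Helper26K9.QA

theorem ode : S_ODE := fun n F hF a => ode_b n F hF a

namespace ExL

/-- congruences modulo a power of the variable -/
lemma quot (k : ℕ) (x y : Se) : (PowerSeries.X : Se) ^ k ∣ x - y ↔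
    Ideal.Quotient.mk (Ideal.span {(PowerSeries.X : Se) ^ k}) x =
      Ideal.Quotient.mk (Ideal.span {(PowerSeries.X : Se) ^ k}) y := by
  rw [Ideal.Quotient.eq, Ideal.mem_span_singleton]

end ExL

open ExL in
theorem exf : S_ODE → S_EXF := by
  intro hode b c t₀ u₀
  obtain ⟨s, hs0, hs⟩ := hode 7 (fun s => ![2 * s 2, 2 * s 3, 0, 2 * ((s 2) ^ 2 + 6 * s 4),
    2 * ((s 0) ^ 2 * s 4 + 4 * s 1 * s 4 - s 0 * s 2 * s 3 + s 1 * (s 2) ^ 2 - (s 3) ^ 2),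
    -(s 2 * (1 + 2 * s 1 * s 6 + s 3 * (s 6) ^ 2 + s 0 * s 5 * s 6)),
    -(2 * (2 + 2 * s 1 * s 6 + s 3 * (s 6) ^ 2 + s 0 * s 5 * s 6))]) (by
      intro k s r h i
      have h' := fun i => (quot k _ _).1 (h i)
      rw [quot]
      fin_cases i <;> simp [map_add, map_mul, map_pow, map_sub, map_neg, h'])
    ![b, 0, c, 0, 0, t₀, u₀]
  refine ⟨s 0, s 1, s 2, s 3, s 4, s 5, s 6, ⟨?_, ?_, ?_, ?_, ?_, ?_, ?_⟩, ?_⟩
  · exact hs 0
  · exact hs 1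
  · exact hs 2
  · exact hs 3
  · exact hs 4
  · exact hs 5
  · exact hs 6
  · exact ⟨hs0 0, hs0 1, hs0 2, hs0 3, hs0 4, hs0 5, hs0 6⟩

open ExL in
theorem exp : S_ODE → S_EXP := by
  intro hode a1 a2 a3 a4 x₀ y₀ g₀
  obtain ⟨s, hs0, hs⟩ := hode 3 (fun s => ![
    2 * (s 2 * (2 * s 1 + a1 * s 0 + a3) + 2 * (s 0) ^ 2 + 2 * a2 * s 0 + a4 - a1 * s 1),
    2 * (s 2 * (3 * (s 0) ^ 2 + 2 * a2 * s 0 + a4 - a1 * s 1) + 3 * s 0 * s 1 + 2 * a2 * s 1 +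
      a1 ^ 2 * s 1 - a1 * (s 0) ^ 2 + a3 * s 0 - a1 * a2 * s 0 + a2 * a3 - a1 * a4),
    -(2 * (s 2 * s 0 + s 1))]) (by
      intro k s r h i
      have h' := fun i => (quot k _ _).1 (h i)
      rw [quot]
      fin_cases i <;> simp [map_add, map_mul, map_pow, map_sub, map_neg, h'])
    ![x₀, y₀, g₀]
  refine ⟨s 0, s 1, s 2, ⟨?_, ?_, ?_⟩, ?_⟩
  · exact hs 0
  · exact hs 1
  · exact hs 2
  · exact ⟨hs0 0, hs0 1, hs0 2⟩

end Pool.Agent.Helper29K9.QA
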